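import Pool.Agent.Lib.MP_ebfc19_pr.DMain
import Pool.Agent.Lib.MP_ebfc19_pr.GBig

/-!
# MP_ebfc19_pr: which rates of uniform convergence of the discounted values imply a value
(deterministic one-player games)

Definitions: `DGame` (arbitrary action set) with `st`, `g`, `avg`, `disc`, `vdisc` in
`Pool/Agent/Lib/MP_ebfc19_pr/DDefs.lean`; `Game` (action set `ℕ`) with `st`, `g`, `avg`, `disc`,
`vdisc`, `HasValue` in `Pool/Agent/Lib/MP_ebfc19_pr/Defs.lean`.
-/

namespace Pool.Agent.Results.MP_ebfc19_pr.Dichotomy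

open Pool.Agent.MP_ebfc19_pr
open Filter MeasureTheory Topology

/-- Let `f : ℕ → (0, 1/2]` be decreasing. (i) If `∑ f k / log (1 / f k) < ∞`, then in every
deterministic one-player game with payoffs in `[0,1]` whose discounted values satisfy
`|v_l - v| ≤ C f k` for all `l ≤ 2^{-k}`, `k ≥ k₀`, uniformly on the states, `v` is the uniform
value: for every `ε > 0` there is `T₀` such that from every state some play has all averages over
`T ≥ T₀` stages at least `v - ε`, and all plays have them at most `v + ε`. (ii) If the sum is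
infinite and `f` tends to `0` and is regular, `min (f j) 2^{-(k-j)} ≤ D f k` for `j ≤ k`, there is
such a game whose discounted values satisfy `|v_l - v| ≤ C f k` for all `l ≤ 2^{-k}`, such that
along every play the lower limit of the averages is `0`, there is a state with `v = 1`, and the
game starting at `ω` has a value if and only if `v ω = 0`. -/
theorem result (f : ℕ → ℝ) (hanti : Antitone f) (hpos : ∀ k, 0 < f k) (hhalf : ∀ k, f k ≤ 1 / 2) :
    ((Summable fun k => f k / Real.log (1 / f k)) →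
      ∀ (G : DGame) (v : G.Ω → ℝ) (C : ℝ) (k₀ : ℕ), Nonempty G.Act →
        (∀ ω a, 0 ≤ G.pay ω a ∧ G.pay ω a ≤ 1) →
        (∀ k, k₀ ≤ k → ∀ l : ℝ, 0 < l → l ≤ (1 / 2) ^ k → ∀ ω, |G.vdisc l ω - v ω| ≤ C * f k) →
        ∀ ε : ℝ, 0 < ε → ∃ T₀ : ℕ, ∀ ω,
          (∃ α : ℕ → G.Act, ∀ T : ℕ, T₀ ≤ T → v ω - ε ≤ G.avg ω T α) ∧
          (∀ α : ℕ → G.Act, ∀ T : ℕ, T₀ ≤ T → G.avg ω T α ≤ v ω + ε)) ∧
    ((¬ Summable fun k => f k / Real.log (1 / f k)) → Tendsto f atTop (𝓝 0) →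
      (∃ D : ℝ, ∀ j k, j ≤ k → min (f j) ((1 / 2) ^ (k - j)) ≤ D * f k) →
      ∃ (G : Game) (v : G.Ω → ℝ) (ω₀ : G.Ω) (C : ℝ),
        (∀ ω a, 0 ≤ G.pay ω a ∧ G.pay ω a ≤ 1) ∧
        (∀ ω, 0 ≤ v ω ∧ v ω ≤ 1) ∧
        v ω₀ = 1 ∧
        (∀ (k : ℕ) (l : ℝ), 0 < l → l ≤ (1 / 2) ^ k → ∀ ω, |G.vdisc l ω - v ω| ≤ C * f k) ∧
        (∀ ω α, liminf (fun T => G.avg ω T α) atTop = 0) ∧
        (∀ ω, (∃ x, G.HasValue ω x) ↔ v ω = 0)) := by
  constructor
  · intro hs G v C k₀ hne hb hv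
    exact DGame.positive G hb v f hanti hpos hhalf hs C k₀ hv
  · rintro hs hlim ⟨D, hD⟩
    have hf : Gen.Good f D := ⟨hanti, hpos, hhalf, hlim, hD⟩
    simp_rw [aa_eq] at hs
    refine ⟨Gen.gex f D hf, Gen.vex hf, ⟨St.ch 1 0, zero_le_one, le_refl _⟩,
      18 * D ^ 2 + 2 * D / f 0, ?_, ?_, rfl, ?_, ?_, ?_⟩
    · exact fun ω a => ⟨Gen.py_nonneg ω.2, Gen.py_le_one ω.2⟩
    · exact fun ω => ⟨Gen.vv_nonneg ω.2, Gen.vv_le_one hf ω.2⟩
    · exact fun k l h0 hk ω => Gen.vdisc_bound hf ω h0 hk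
    · exact fun ω α => Gen.liminf_eq hf hs ω α
    · intro ω
      constructor
      · rintro ⟨x, hx⟩
        by_contra hc
        exact Gen.no_value hf hs ω (lt_of_le_of_ne (Gen.vv_nonneg ω.2) (Ne.symm hc)) x hx
      · exact fun h => ⟨0, Gen.hasValue_zero hf hs ω h⟩

end Pool.Agent.Results.MP_ebfc19_pr.Dichotomy
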