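import Pool.Agent.Lib.MP_ebfc19_pr.MN.Main

/-!
# MP_ebfc19_pr: which uniform rates in (3') force a value (two-player games)

Definitions: `S1`, `S2` (pure strategies), `hist`, `Game`, `Game.st`, `Game.g`, `Game.avg`,
`Game.disc`, `Ex` (expectation), `Game.IsDiscValue`, `Game.HasValue` in
`Pool/Agent/Lib/MP_ebfc19_pr/MN/Defs.lean`; `pure2 t` (the point mass at the pure strategy `t`) in
`Pool/Agent/Lib/MP_ebfc19_pr/MN/Meas.lean`.
-/

namespace Pool.Agent.Results.MP_ebfc19_pr.DiniSharp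

open Pool.Agent.MP_ebfc19_pr.MN
open Filter MeasureTheory Topology

/-- Let `F : ℕ → (0, ∞)` be nonincreasing. (i) If `∑ F n / (n + 1) < ∞`, then every family `vl` of
functions on a set `Ω` with `|vl l - v| ≤ C F n` on `Ω` for all `l ≤ 1 / (n + 1)` satisfies
condition (3) of Mertens and Neyman. (ii) If the sum is infinite, `F` tends to `0` and
`(n + 1) F n` is nondecreasing, then there is a two-person zero-sum game (deterministic
transitions, action sets `ℕ × ℕ` and `Bool`, payoffs in `[0,1]`) all of whose discounted games have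
values `vl l ω`, with `|vl l ω - v ω| ≤ C F n` for all states `ω` and all `l ≤ 1 / (n + 1)`, and a
state `ω₀` such that: some pure strategy of player 2 keeps the lower limit of the averages at most
`v ω₀ - ε₀` along every play; against every strategy of player 1 and for every `T₀` there are a
pure strategy of player 2 and a `T ≥ T₀` for which the expected average of the first `T` payoffs is
at most `v ω₀ - ε₀`; the game starting at `ω₀` has no value. -/
theorem result (F : ℕ → ℝ) (hpos : ∀ n, 0 < F n) (hanti : Antitone F) :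
    ((Summable fun n : ℕ => F n / ((n : ℝ) + 1)) →
      ∀ (Ω : Type) (vl : ℝ → Ω → ℝ) (v : Ω → ℝ) (C : ℝ),
        (∀ (n : ℕ) (l : ℝ), 0 < l → l ≤ 1 / ((n : ℝ) + 1) → ∀ ω, |vl l ω - v ω| ≤ C * F n) →
        ∃ l : ℕ → ℝ, (∀ i, 0 < l i ∧ l i ≤ 1) ∧ StrictAnti l ∧ Tendsto l atTop (𝓝 0) ∧
          Tendsto (fun i => l (i + 1) / l i) atTop (𝓝 1) ∧
          Summable fun i => ⨆ ω, |vl (l (i + 1)) ω - vl (l i) ω|) ∧
    ((¬ Summable fun n : ℕ => F n / ((n : ℝ) + 1)) → Tendsto F atTop (𝓝 0) →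
      (Monotone fun n : ℕ => ((n : ℝ) + 1) * F n) →
      ∃ (G : Game (ℕ × ℕ) Bool) (v : G.Ω → ℝ) (vl : ℝ → G.Ω → ℝ) (C : ℝ) (ω₀ : G.Ω) (ε₀ : ℝ),
        (∀ ω a b, 0 ≤ G.pay ω a b ∧ G.pay ω a b ≤ 1) ∧
        (∀ l ω, 0 < l → l ≤ 1 → G.IsDiscValue l ω (vl l ω)) ∧
        (∀ (n : ℕ) (l : ℝ), 0 < l → l ≤ 1 / ((n : ℝ) + 1) → ∀ ω, |vl l ω - v ω| ≤ C * F n) ∧
        0 < ε₀ ∧
        (∃ t : S2 (ℕ × ℕ) Bool, ∀ s : S1 (ℕ × ℕ) Bool,
          liminf (fun T => G.avg ω₀ T s t) atTop ≤ v ω₀ - ε₀) ∧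
        (∀ (σ : ProbabilityMeasure (S1 (ℕ × ℕ) Bool)) (T₀ : ℕ),
          ∃ (t : S2 (ℕ × ℕ) Bool) (T : ℕ), T₀ ≤ T ∧
            Ex σ (pure2 t) (G.avg ω₀ T) ≤ v ω₀ - ε₀) ∧
        ∀ x, ¬ G.HasValue ω₀ x) :=
  ⟨fun hs Ω vl v C h => three F hpos hanti hs Ω vl v C h,
    fun hs hlim hmono => main F hpos hanti hs hlim hmono⟩

end Pool.Agent.Results.MP_ebfc19_pr.DiniSharp
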