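import Pool.Agent.Lib.MP_ebfc19_pr.Big

/-!
# MP_ebfc19_pr: no value although the discounted values converge uniformly at rate `C / log (1/λ)`

The definitions (`Game`, `Game.st`, `Game.g`, `Game.avg`, `Game.disc`, `Game.vdisc`,
`Game.HasValue`) are in `Pool/Agent/Lib/MP_ebfc19_pr/Defs.lean`.
-/

namespace Pool.Agent.Results.MP_ebfc19_pr.LogRate

open Pool.Agent.MP_ebfc19_pr
open Filter MeasureTheory

/-- There is a deterministic one-player game with payoffs in `[0, 1]` whose discounted values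
converge uniformly over all states, `|v_l - v| ≤ 34 / log (1/l)`, such that along every play from
every state the lower limit of the averages is `0`; the game starting at `ω` has a value if and
only if `v ω = 0`, and `v ω₀ = 1` for some state `ω₀`. -/
theorem result :
    ∃ (G : Game) (v : G.Ω → ℝ) (ω₀ : G.Ω),
      (∀ ω a, 0 ≤ G.pay ω a ∧ G.pay ω a ≤ 1) ∧
      (∀ ω, 0 ≤ v ω ∧ v ω ≤ 1) ∧
      v ω₀ = 1 ∧
      (∀ l : ℝ, 0 < l → l ≤ 1 / 2 → ∀ ω, |G.vdisc l ω - v ω| ≤ 34 / Real.log (1 / l)) ∧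
      (∀ ω α, liminf (fun T => G.avg ω T α) atTop = 0) ∧
      (∀ ω, ∀ ε : ℝ, 0 < ε → ∀ T₀ : ℕ, ∃ T, T₀ ≤ T ∧ ∃ α, v ω - ε ≤ G.avg ω T α) ∧
      (∀ ω, (∃ x, G.HasValue ω x) ↔ v ω = 0) := by
  refine ⟨ex, vex, ⟨St.ch 1 0, zero_le_one, le_refl _⟩, ?_, ?_, rfl, ?_, ?_, ?_, ?_⟩
  · exact fun ω a => ⟨py_nonneg ω.2, py_le_one ω.2⟩
  · exact fun ω => ⟨vv_nonneg ω.2, vv_le_one ω.2⟩
  · exact fun l h0 h1 ω => vdisc_bound ω h0 h1
  · exact fun ω α => liminf_eq ω α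
  · exact fun ω ε hε T₀ => exists_big' ω hε T₀
  · intro ω
    constructor
    · rintro ⟨x, hx⟩
      by_contra hc
      exact no_value ω (lt_of_le_of_ne (vv_nonneg ω.2) (Ne.symm hc)) x hx
    · exact fun h => ⟨0, hasValue_zero ω h⟩

end Pool.Agent.Results.MP_ebfc19_pr.LogRate
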